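import Pool.Agent.Lib.MP_4d7d0a_gt.Fin
import Pool.Agent.Lib.MP_4d7d0a_gt.A
import Pool.Agent.Lib.MP_4d7d0a_gt.K1G
import Pool.Agent.Lib.MP_4d7d0a_gt.K1
import Pool.Agent.Lib.MP_4d7d0a_gt.K2
import Pool.Agent.Lib.MP_4d7d0a_gt.DIso
import Pool.Agent.Lib.MP_4d7d0a_gt.Cable
import Pool.Agent.Lib.MP_4d7d0a_gt.DSpec

import Pool.Agent.Lib.MP_4d7d0a_gt.ProfEx
import Pool.Agent.Lib.MP_4d7d0a_gt.TBCab

/-! A tight contact 3-manifold that is the contact (+1)-surgery on infinitely many pairwise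
non-isotopic Legendrian knots in the standard contact 3-sphere. -/

set_option autoImplicit false

namespace Pool.Agent.Results.MP_4d7d0a_gt.TightFamily

open Pool.Agent.Lib.MP_4d7d0a_gt

theorem result :
    ∃ (M : Type) (_ : TopologicalSpace M) (_ : ChartedSpace P3 M), T2Space M ∧ CompactSpace M ∧
      IsContactAtlas M ∧ Tight M ∧ ∃ K : ℕ → ℝ → P4, (∀ n, IsLegKnot (K n)) ∧
        (∀ n m, n ≠ m → ¬ LegIsotopic (K n) (K m)) ∧ ∀ n, IsPlusOneSurgery (K n) M :=
  final_cpt od_holds (kStmt_of p_holds k2_holds) tgen_holds cable_holds fam_holds dgen_holds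
    dspec_holds prof_holds surg_holds

end Pool.Agent.Results.MP_4d7d0a_gt.TightFamily
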